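import Mathlib
import Pool.Agent.Lib.MP_6a83a4_lc.ClosedMed

/-!
# A closed maximal eventually different family of permutations

The construction and its verification are in `Pool.Agent.Lib.MP_6a83a4_lc.ClosedMed`; the statement
below only uses Mathlib notions.
-/

set_option autoImplicit false

namespace Pool.Agent.Results.MP_6a83a4_lc.ClosedMedFamily

open Pool.Agent.Lib.MP_6a83a4_lc.ClosedMed

/-- There is a set of permutations of `ℕ` which is closed in Baire space `ℕ → ℕ`, eventually
different, and maximal among the eventually different families of permutations. -/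
theorem result : ∃ F : Set (ℕ → ℕ),
    IsClosed F ∧
    (∀ f ∈ F, Function.Bijective f) ∧
    (∀ f ∈ F, ∀ g ∈ F, f ≠ g → {n : ℕ | f n = g n}.Finite) ∧
    (∀ g : ℕ → ℕ, Function.Bijective g → ∃ f ∈ F, {n : ℕ | f n = g n}.Infinite) := by
  refine ⟨Set.range M, M_closed, ?_, ?_, ?_⟩
  · rintro f ⟨x, rfl⟩
    exact M_bijective x
  · rintro f ⟨x, rfl⟩ g ⟨y, rfl⟩ hne
    exact M_eventually_different (fun h => hne (congrArg M h))
  · intro g hg
    by_cases hX : {a | A g a ∧ w g a = 0}.Finite
    · obtain ⟨x, hx⟩ := catch_bad hX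
      exact ⟨M x, ⟨x, rfl⟩, hx⟩
    · obtain ⟨x, hx⟩ := catch_good hg.1 hX
      exact ⟨M x, ⟨x, rfl⟩, hx⟩

end Pool.Agent.Results.MP_6a83a4_lc.ClosedMedFamily
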